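import Pool.Agent.H273Z.PUProof

set_option autoImplicit false

open Topology

namespace Pool.Agent.Results.MP_a217de_gt.ACounterexample

open Pool.Agent.H273Z.PU

/-- Negative answer to Q1: pseudo-instability is not a local property of points of continua. -/
theorem result : ∃ (X Y : Type) (_ : MetricSpace X) (_ : MetricSpace Y),
    CompactSpace X ∧ ConnectedSpace X ∧ CompactSpace Y ∧ ConnectedSpace Y ∧
    ∃ (x : X) (y : Y) (U : Set X) (V : Set Y) (hU : U ∈ 𝓝 x) (_ : V ∈ 𝓝 y) (h : U ≃ₜ V),
      (h ⟨x, mem_of_mem_nhds hU⟩ : Y) = y ∧ PseudoUnstable x ∧ ¬ PseudoUnstable y :=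
  main

end Pool.Agent.Results.MP_a217de_gt.ACounterexample
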